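import Mathlib

/-! Words containing every ordering of a finite set: cutting out a piece of the word. -/

namespace Pool.Agent.Lib.MP_6c7e5c_co

variable {α : Type} [DecidableEq α]

/-- Every ordering of `S` is a subsequence of `w`. -/
def Univ (S : Finset α) (w : List α) : Prop :=
  ∀ l : List α, l.Nodup → l.toFinset = S → l.Sublist w

/-- The number of letters of `w` that lie in `T`. -/
def cnt (T : Finset α) (w : List α) : ℕ := w.countP fun a => decide (a ∈ T)

omit [DecidableEq α] in
lemma sub_right {s t u y : List α} (h : (s ++ t).Sublist (u ++ y)) (hs : ¬s.Sublist u) :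
    t.Sublist y := by
  obtain ⟨l1, l2, e, h1, h2⟩ := List.sublist_append_iff.1 h
  rcases List.append_eq_append_iff.1 e with ⟨a, rfl, -⟩ | ⟨a, rfl, rfl⟩
  · exact absurd ((List.sublist_append_left _ _).trans h1) hs
  · exact (List.sublist_append_right a t).trans h2

omit [DecidableEq α] in
lemma exists_stop (l u : List α) : l.Sublist u ∨
    ∃ σ b τ, l = σ ++ b :: τ ∧ σ.Sublist u ∧ ¬(σ ++ [b]).Sublist u := by
  induction l using List.reverseRecOn with
  | nil => exact Or.inl (List.nil_sublist _)
  | append_singleton l c ih =>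
    rcases ih with h | ⟨σ, b, τ, rfl, h1, h2⟩
    · by_cases k : (l ++ [c]).Sublist u
      · exact Or.inl k
      · exact Or.inr ⟨l, c, [], rfl, h, k⟩
    · exact Or.inr ⟨σ, b, τ ++ [c], by simp, h1, h2⟩

lemma Univ.cut {S : Finset α} {u g v A : List α} (h : Univ S (u ++ (g ++ v))) (hA : A.Nodup)
    (hS : A.toFinset ⊆ S) (hg : ∀ τ, (A ++ τ).Sublist (g ++ v) → τ.Sublist v) :
    Univ (S \ A.toFinset) (u ++ ((S \ A.toFinset).toList ++ v)) := by
  intro l hl e
  rcases exists_stop l u with k | ⟨σ, b, τ, rfl, h1, h2⟩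
  · exact k.trans (List.sublist_append_left _ _)
  have p : ((σ ++ [b]) ++ (A ++ τ)).Perm (A ++ (σ ++ b :: τ)) := by
    have := (List.perm_append_comm (l₁ := σ ++ [b]) (l₂ := A)).append_right τ
    simpa using this
  have n : (A ++ (σ ++ b :: τ)).Nodup := by
    refine List.nodup_append.2 ⟨hA, hl, fun a ha c hc k => ?_⟩
    have : c ∈ S \ A.toFinset := e ▸ List.mem_toFinset.2 hc
    exact (Finset.mem_sdiff.1 this).2 (List.mem_toFinset.2 (k ▸ ha))
  have k := h _ (p.nodup_iff.2 n) (by
    rw [List.toFinset_eq_of_perm _ _ p, List.toFinset_append, e, Finset.union_sdiff_of_subset hS])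
  have hb : b ∈ (S \ A.toFinset).toList := by
    rw [Finset.mem_toList, ← e]
    simp
  exact h1.append ((List.singleton_sublist.2 hb).append (hg τ (sub_right k h2)))

lemma Univ.filter {S : Finset α} {w : List α} (h : Univ S w) :
    Univ S (w.filter fun a => decide (a ∈ S)) := fun l hl e => by
  have := (h l hl e).filter fun a => decide (a ∈ S)
  rwa [List.filter_eq_self.2 fun a ha => by simpa [← e] using ha] at this

lemma cnt_append (T : Finset α) (u v : List α) : cnt T (u ++ v) = cnt T u + cnt T v :=
  List.countP_append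

lemma cnt_le (T : Finset α) (w : List α) : cnt T w ≤ w.length := List.countP_le_length

lemma cnt_eq_sum (T : Finset α) (w : List α) : cnt T w = ∑ a ∈ T, w.count a := by
  induction w with
  | nil => simp [cnt]
  | cons b w ih =>
    unfold cnt at ih ⊢
    simp only [List.countP_cons, List.count_cons, Finset.sum_add_distrib, ih, beq_iff_eq,
      decide_eq_true_eq, Finset.sum_ite_eq]

lemma cnt_disj {T U : Finset α} (h : Disjoint T U) (w : List α) :
    cnt T w + cnt U w ≤ w.length := by
  rw [cnt_eq_sum, cnt_eq_sum, ← Finset.sum_union h, ← cnt_eq_sum]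
  exact cnt_le _ _

lemma miss {C T : Finset α} {b : List α} {y : ℕ} (h : cnt C b ≤ y) (hT : T ⊆ C)
    (hy : y < T.card) : ∃ a ∈ T, a ∉ b := by
  by_contra k
  push Not at k
  have k1 : ∑ a ∈ T, 1 ≤ ∑ a ∈ T, b.count a :=
    Finset.sum_le_sum fun a ha => List.count_pos_iff.2 (k a ha)
  have k2 : ∑ a ∈ T, b.count a ≤ ∑ a ∈ C, b.count a := Finset.sum_le_sum_of_subset hT
  rw [← cnt_eq_sum C] at k2
  simp only [Finset.sum_const, smul_eq_mul, mul_one] at k1
  omega

lemma Univ.elem : ∀ (s : ℕ) (S : Finset α) (w : List α), S.card = s → Univ S w →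
    s ^ 2 ≤ 2 * w.length + s := by
  intro s
  induction s with
  | zero => simp
  | succ k ih =>
    intro S w hS h
    have h1 : k + 1 ≤ w.length := by
      have := (h S.toList S.nodup_toList S.toList_toFinset).length_le
      rwa [Finset.length_toList, hS] at this
    obtain ⟨a, ha, hb⟩ := miss (C := S) (T := S) (b := w.take k) (y := k)
      ((cnt_le _ _).trans (by simp)) le_rfl (by omega)
    have h2 := ih (S.erase a) (w.drop k) (by rw [Finset.card_erase_of_mem ha, hS]; rfl)
      fun l hl e => by
        have n : a ∉ l := fun m => by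
          have : a ∈ S.erase a := e ▸ List.mem_toFinset.2 m
          simp at this
        have := h (a :: l) (List.nodup_cons.2 ⟨n, hl⟩)
          (by rw [List.toFinset_cons, e, Finset.insert_erase ha])
        rw [← List.take_append_drop k w] at this
        exact sub_right (s := [a]) this fun m => hb (List.singleton_sublist.1 m)
    rw [List.length_drop] at h2
    obtain ⟨d, hd⟩ := Nat.exists_eq_add_of_le (Nat.le_of_succ_le h1)
    rw [hd, Nat.add_sub_cancel_left] at h2
    nlinarith

lemma split_cnt (C : Finset α) : ∀ (w : List α) (y k : ℕ), cnt C w ≤ y + k →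
    ∃ b v, w = b ++ v ∧ cnt C b ≤ y ∧ cnt C v ≤ k := by
  intro w
  induction w with
  | nil => exact fun y k _ => ⟨[], [], rfl, by simp [cnt], by simp [cnt]⟩
  | cons a w ih =>
    intro y k h
    have e : ∀ l, cnt C (a :: l) = cnt C l + if a ∈ C then 1 else 0 := fun l => by
      simp [cnt, List.countP_cons]
    rcases y with _ | y
    · exact ⟨[], a :: w, rfl, by simp [cnt], by simpa using h⟩
    · by_cases m : a ∈ C
      · rw [e, if_pos m] at h
        obtain ⟨b, v, rfl, h1, h2⟩ := ih y k (by omega)
        exact ⟨a :: b, v, rfl, by rw [e, if_pos m]; omega, h2⟩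
      · rw [e, if_neg m] at h
        obtain ⟨b, v, rfl, h1, h2⟩ := ih (y + 1) k h
        exact ⟨a :: b, v, rfl, by rw [e, if_neg m]; omega, h2⟩

lemma exists_piece (C : Finset α) (z : ℕ) : ∀ (G : ℕ) (w : List α), cnt C w ≤ (G + 1) * z →
    ∃ u g v, w = u ++ (g ++ v) ∧ cnt C g ≤ z ∧ w.length ≤ (G + 1) * g.length := by
  intro G
  induction G with
  | zero => exact fun w h => ⟨[], w, [], by simp, by simpa using h, by simp⟩
  | succ G ih =>
    intro w h
    obtain ⟨b, w', rfl, h1, h2⟩ := split_cnt C w z ((G + 1) * z) (by linarith)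
    obtain ⟨u, g, v, e, k1, k2⟩ := ih w' h2
    rcases le_total b.length g.length with m | m
    · exact ⟨b ++ u, g, v, by rw [e, List.append_assoc], k1, by
        rw [List.length_append]; nlinarith⟩
    · exact ⟨[], b, w', rfl, h1, by rw [List.length_append]; nlinarith⟩

lemma exists_avoid (C : Finset α) (y : ℕ) : ∀ (r : ℕ) (g : List α) (T : Finset α),
    cnt C g ≤ (r + 1) * y → T ⊆ C → y + r < T.card → ∃ A : List α, A.Nodup ∧ A.toFinset ⊆ T ∧
      A.length = r + 1 ∧ ∀ τ v, (A ++ τ).Sublist (g ++ v) → τ.Sublist v := by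
  intro r
  induction r with
  | zero =>
    intro g T h hT hy
    obtain ⟨a, ha, hb⟩ := miss (y := y) (by simpa using h) hT hy
    exact ⟨[a], by simp, by simpa using ha, rfl, fun τ v k =>
      sub_right k fun m => hb (List.singleton_sublist.1 m)⟩
  | succ r ih =>
    intro g T h hT hy
    obtain ⟨b, g', rfl, h1, h2⟩ := split_cnt C g y ((r + 1) * y) (by linarith)
    obtain ⟨a, ha, hb⟩ := miss h1 hT (by omega)
    obtain ⟨A, k1, k2, k3, k4⟩ := ih g' (T.erase a) h2 ((T.erase_subset a).trans hT)
      (by rw [Finset.card_erase_of_mem ha]; omega)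
    refine ⟨a :: A, List.nodup_cons.2 ⟨fun m => ?_, k1⟩, ?_, by simp [k3], fun τ v k => k4 τ v ?_⟩
    · simpa using k2 (List.mem_toFinset.2 m)
    · rw [List.toFinset_cons]
      exact Finset.insert_subset ha (k2.trans (T.erase_subset a))
    · rw [List.append_assoc] at k
      exact sub_right (s := [a]) k fun m => hb (List.singleton_sublist.1 m)

end Pool.Agent.Lib.MP_6c7e5c_co
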