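import Mathlib

namespace Pool.Agent.Lib.MP_6c7e5c_co

/-- The number of permutations of `[n]` (read as words of length `n`) that are subsequences
of the word `w`. -/
def permCount (n : ℕ) (w : List (Fin n)) : ℕ :=
  (Finset.univ.filter (fun π : Equiv.Perm (Fin n) => (List.ofFn π).Sublist w)).card

/-- `h n m`: the minimum length of a word over `[n]` containing at least `m` permutations. -/
noncomputable def h (n m : ℕ) : ℕ :=
  sInf {L : ℕ | ∃ w : List (Fin n), w.length = L ∧ m ≤ permCount n w}

/-- `ell m n`: the least `l` with `m ≤ l.choose n`. -/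
noncomputable def ell (m n : ℕ) : ℕ := sInf {l : ℕ | m ≤ l.choose n}

end Pool.Agent.Lib.MP_6c7e5c_co
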