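import Pool.Agent.Lib.MP_6c7e5c_co.Cut

/-! A word containing every ordering of `s` letters has length at least `(1 - o(1)) s ^ 2`. -/

namespace Pool.Agent.Lib.MP_6c7e5c_co

open Finset

variable {α : Type} [DecidableEq α]

lemma exists_class {S : Finset α} {w : List α} {q : ℕ} (hq : 0 < q) (hs : 4 * q < S.card)
    (hL : w.length ≤ S.card ^ 2) : ∃ (C : Finset α) (t : ℕ), C ⊆ S ∧ C.card = q ∧
      ∀ a ∈ C, t ≤ w.count a ∧ w.count a ≤ t + 8 * q := by
  set s := S.card with e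
  have h1 : (S.filter fun a => ¬w.count a < 2 * s).card * (2 * s) ≤ s ^ 2 := by
    refine le_trans ?_ ((cnt_le (S.filter fun a => ¬w.count a < 2 * s) w).trans hL)
    rw [cnt_eq_sum, ← smul_eq_mul]
    exact card_nsmul_le_sum _ _ _ fun a ha => not_lt.1 (mem_filter.1 ha).2
  have h2 := card_filter_add_card_filter_not (s := S) fun a => w.count a < 2 * s
  have h3 : 2 * (S.filter fun a => ¬w.count a < 2 * s).card ≤ s :=
    Nat.le_of_mul_le_mul_right (by nlinarith) (show 0 < s by omega)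
  have h4 := Nat.div_mul_le_self (2 * s) (8 * q)
  obtain ⟨j, -, hj⟩ := exists_lt_card_fiber_of_mul_lt_card_of_maps_to
    (s := S.filter fun a => w.count a < 2 * s) (t := range (2 * s / (8 * q) + 1))
    (f := fun a => w.count a / (8 * q)) (n := q)
    (fun a ha => mem_range.2 (Nat.lt_succ_of_le (Nat.div_le_div_right (mem_filter.1 ha).2.le)))
    (by rw [card_range]; nlinarith)
  obtain ⟨C, k1, k2⟩ := exists_subset_card_eq hj.le
  refine ⟨C, j * (8 * q), k1.trans ((filter_subset _ _).trans (filter_subset _ _)), k2,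
    fun a ha => ?_⟩
  have k3 : w.count a / (8 * q) = j := (mem_filter.1 (k1 ha)).2
  rw [← k3]
  exact ⟨Nat.div_mul_le_self _ _, (Nat.lt_div_mul_add (by omega)).le⟩

lemma Univ.step {S : Finset α} {w : List α} (h : Univ S w) {r q : ℕ}
    (hq : q = (r + 1) ^ 3 + (r + 1) ^ 2 + (r + 1)) (hs : 4 * q < S.card)
    (hL : w.length ≤ S.card ^ 2) : ∃ (S' : Finset α) (w' : List α) (G x t : ℕ), Univ S' w' ∧
      S'.card + (r + 1) = S.card ∧ w.length ≤ (G + 1) * x ∧
      G * (r + 1) ^ 4 ≤ q * (t + 8 * q) ∧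
      (r + 1) * (w'.length + x + (r + 1) * t) ≤ (r + 1) * (w.length + S.card) + x := by
  obtain ⟨C, t, hC, hc, ht⟩ := exists_class (w := w) (q := q) (by rw [hq]; positivity) hs hL
  have c1 : cnt C w ≤ q * (t + 8 * q) := by
    rw [cnt_eq_sum, ← hc, ← smul_eq_mul]
    exact sum_le_card_nsmul _ _ _ fun a ha => hc ▸ (ht a ha).2
  obtain ⟨u, g, v, rfl, g1, g2⟩ := exists_piece C ((r + 1) ^ 4) (q * (t + 8 * q) / (r + 1) ^ 4) w
    (c1.trans (by rw [add_mul, one_mul]; exact (Nat.lt_div_mul_add (by positivity)).le))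
  have h1 : (C.filter fun a => ¬(r + 1) ^ 2 * g.count a ≤ g.length).card * (g.length + 1) ≤
      (r + 1) ^ 2 * g.length := by
    refine le_trans ?_ (Nat.mul_le_mul_left _
      (cnt_le (C.filter fun a => ¬(r + 1) ^ 2 * g.count a ≤ g.length) g))
    rw [cnt_eq_sum, mul_sum, ← smul_eq_mul]
    exact card_nsmul_le_sum _ _ _ fun a ha => not_le.1 (mem_filter.1 ha).2
  have h2 := card_filter_add_card_filter_not (s := C) fun a => (r + 1) ^ 2 * g.count a ≤ g.length
  have h3 : (C.filter fun a => ¬(r + 1) ^ 2 * g.count a ≤ g.length).card ≤ (r + 1) ^ 2 :=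
    Nat.le_of_mul_le_mul_right (h1.trans (by nlinarith)) (Nat.succ_pos g.length)
  obtain ⟨A, a1, a2, a3, a4⟩ := exists_avoid C ((r + 1) ^ 3) r g
    (C.filter fun a => (r + 1) ^ 2 * g.count a ≤ g.length) (g1.trans (le_of_eq (by ring)))
    (filter_subset _ _) (by omega)
  have aC : A.toFinset ⊆ C := a2.trans (filter_subset _ _)
  have ac : A.toFinset.card = r + 1 := by rw [List.toFinset_card_of_nodup a1, a3]
  refine ⟨_, _, _, g.length, t, (h.cut a1 (aC.trans hC) fun τ => a4 τ v).filter, ?_, g2,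
    Nat.div_mul_le_self _ _, ?_⟩
  · rw [← ac, card_sdiff_add_card_eq_card (aC.trans hC)]
  · have k1 : (r + 1) * t ≤ cnt A.toFinset (u ++ (g ++ v)) := by
      rw [cnt_eq_sum, ← ac, ← smul_eq_mul]
      exact card_nsmul_le_sum _ _ _ fun a ha => (ht a (aC ha)).1
    have k2 : (r + 1) ^ 2 * cnt A.toFinset g ≤ (r + 1) * g.length := by
      rw [cnt_eq_sum, mul_sum, ← ac, ← smul_eq_mul]
      exact sum_le_card_nsmul _ _ _ fun a ha => ac ▸ (mem_filter.1 (a2 ha)).2
    have k3 : (r + 1) * cnt A.toFinset g ≤ g.length :=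
      Nat.le_of_mul_le_mul_left (by nlinarith) (Nat.succ_pos r)
    have k4 := cnt_disj (sdiff_disjoint (s := A.toFinset) (t := S)) u
    have k5 := cnt_disj (sdiff_disjoint (s := A.toFinset) (t := S)) v
    have k6 := cnt_le (S \ A.toFinset) (S \ A.toFinset).toList
    have k7 : (S \ A.toFinset).card ≤ S.card := card_le_card sdiff_subset
    rw [length_toList] at k6
    rw [← List.countP_eq_length_filter]
    change (r + 1) * (cnt (S \ A.toFinset) _ + _ + _) ≤ _
    simp only [cnt_append, List.length_append] at k1 ⊢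
    have k8 : cnt (S \ A.toFinset) u + (cnt (S \ A.toFinset) (S \ A.toFinset).toList +
        cnt (S \ A.toFinset) v) + g.length + (r + 1) * t ≤
        u.length + (g.length + v.length) + S.card + cnt A.toFinset g := by omega
    nlinarith [Nat.mul_le_mul_left (r + 1) k8]

lemma step_real {K q L L' s G x t : ℝ} (hK : 5 ≤ K) (hq : q ≤ K ^ 2 * (K + 2))
    (hs : K ^ 2 + 8 * K * q ≤ s) (hq0 : 0 ≤ q) (hG : 0 ≤ G) (hx : 0 ≤ x) (ht : 0 ≤ t) (hL : 0 ≤ L)
    (h0 : s ^ 2 ≤ 2 * L + s) (h1 : L ≤ (G + 1) * x) (h2 : G * K ^ 4 ≤ q * (t + 8 * q))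
    (h3 : K * (L' + x + K * t) ≤ K * (L + s) + x) : √L' ≤ √L - (K - 5) := by
  have K0 : 0 < K := by linarith
  have z0 := Real.sqrt_nonneg L
  have z2 := Real.sq_sqrt hL
  set z := √L
  have s25 : 5 * K ≤ s := by nlinarith [mul_nonneg K0.le hq0]
  have sz : s ≤ 2 * z := by
    refine le_of_pow_le_pow_left₀ two_ne_zero (by positivity) ?_
    nlinarith
  have h4 : G * K ^ 2 ≤ (K + 2) * (t + 8 * q) := by
    refine le_of_mul_le_mul_right ?_ (show 0 < K ^ 2 by positivity)
    nlinarith [mul_le_mul_of_nonneg_right hq (show 0 ≤ t + 8 * q by positivity)]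
  set a := x * (K - 1) / K with ha
  set b := K ^ 3 * (G + 1) / (K + 2) with hb
  have a0 : 0 ≤ a := div_nonneg (mul_nonneg hx (by linarith)) K0.le
  have b0 : 0 ≤ b := by positivity
  have ab : (K - 3) ^ 2 * z ^ 2 ≤ a * b := by
    have e : a * b = K ^ 2 * (K - 1) / (K + 2) * ((G + 1) * x) := by
      rw [ha, hb]
      field_simp
    rw [e, z2]
    refine mul_le_mul ?_ h1 hL (div_nonneg (mul_nonneg (by positivity) (by linarith)) (by linarith))
    rw [le_div_iff₀ (by linarith)]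
    nlinarith
  have am : 2 * (K - 3) * z ≤ a + b := by
    refine le_of_pow_le_pow_left₀ two_ne_zero (by positivity) ?_
    nlinarith [sq_nonneg (a - b)]
  have b1 : b ≤ K * t + 8 * K * q + K ^ 2 := by
    rw [hb, div_le_iff₀ (by linarith)]
    nlinarith [mul_le_mul_of_nonneg_left h4 K0.le]
  have a1 : L' + a + K * t ≤ L + s := by
    refine le_of_mul_le_mul_left ?_ K0
    have : K * a = x * (K - 1) := by rw [ha]; field_simp
    nlinarith
  refine Real.sqrt_le_iff.2 ⟨by linarith, ?_⟩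
  nlinarith [sq_nonneg (K - 5)]

theorem sqrt_lower {K : ℕ} (hK : 5 ≤ K) : ∃ C : ℝ, ∀ (s : ℕ) (S : Finset α) (w : List α),
    S.card = s → Univ S w → ((K : ℝ) - 5) * s ≤ K * √w.length + C := by
  obtain ⟨r, rfl⟩ : ∃ r, K = r + 1 := ⟨K - 1, by omega⟩
  obtain ⟨q, hq⟩ : ∃ q, q = (r + 1) ^ 3 + (r + 1) ^ 2 + (r + 1) := ⟨_, rfl⟩
  have K5 : (5 : ℝ) ≤ (r + 1 : ℕ) := by exact_mod_cast hK
  refine ⟨(r + 1 : ℕ) * ((r + 1) ^ 2 + 8 * (r + 1) * q : ℕ), fun s => ?_⟩
  induction s using Nat.strong_induction_on with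
  | _ s ih =>
    intro S w hS h
    have z0 := Real.sqrt_nonneg (w.length : ℝ)
    have s0 : (0 : ℝ) ≤ s := s.cast_nonneg
    have c0 : (0 : ℝ) ≤ ((r + 1) ^ 2 + 8 * (r + 1) * q : ℕ) := Nat.cast_nonneg _
    rcases le_or_gt s ((r + 1) ^ 2 + 8 * (r + 1) * q) with k | k
    · have : (s : ℝ) ≤ ((r + 1) ^ 2 + 8 * (r + 1) * q : ℕ) := by exact_mod_cast k
      nlinarith
    rcases le_total (s ^ 2) w.length with m | m
    · have : (s : ℝ) ≤ √w.length := Real.le_sqrt_of_sq_le (by exact_mod_cast m)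
      nlinarith
    obtain ⟨S', w', G, x, t, k1, k2, k3, k4, k5⟩ := h.step hq (by rw [hS]; nlinarith) (hS ▸ m)
    have k6 := ih S'.card (by omega) S' w' rfl k1
    have k7 := step_real (K := (r + 1 : ℕ)) (q := q) (L := w.length) (L' := w'.length) (s := s)
      (G := G) (x := x) (t := t) K5 (by rw [hq]; push_cast; nlinarith [r.cast_nonneg (α := ℝ)])
      (by exact_mod_cast k.le) q.cast_nonneg G.cast_nonneg x.cast_nonneg t.cast_nonneg
      (Nat.cast_nonneg _) (by exact_mod_cast Univ.elem s S w hS h) (by exact_mod_cast k3)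
      (by exact_mod_cast k4) (by rw [← hS]; exact_mod_cast k5)
    have k8 : (S'.card : ℝ) + (r + 1 : ℕ) = s := by exact_mod_cast hS ▸ k2
    nlinarith

end Pool.Agent.Lib.MP_6c7e5c_co
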