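import Pool.Agent.Lib.MP_6c7e5c_co.Defs

/-! The periodic word contains many permutations. -/

namespace Pool.Agent.Lib.MP_6c7e5c_co

open Finset

/-- The word `(0 1 ... n-1)^k`. -/
def cyc (n k : ℕ) (hn : 0 < n) : List (Fin n) :=
  (List.range (k * n)).map (fun j => ⟨j % n, Nat.mod_lt _ hn⟩)

lemma cyc_length (n k : ℕ) (hn : 0 < n) : (cyc n k hn).length = k * n := by
  simp [cyc]

lemma sublist_cyc {n k : ℕ} (hn : 0 < n) (f : Fin n → Fin k) (π : Equiv.Perm (Fin n))
    (hmono : Monotone (f ∘ π)) (htie : ∀ i j, i < j → f (π i) = f (π j) → π i < π j) :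
    (List.ofFn π).Sublist (cyc n k hn) := by
  let idx : Fin n → ℕ := fun i => (f (π i) : ℕ) * n + (π i : ℕ)
  have hidx : StrictMono idx := by
    intro i j hij
    have h1 : f (π i) ≤ f (π j) := hmono hij.le
    rcases h1.lt_or_eq with h2 | h2
    · have h3 : (f (π i) : ℕ) + 1 ≤ (f (π j) : ℕ) := h2
      have h4 : (π i : ℕ) < n := (π i).2
      have h5 : ((f (π i) : ℕ) + 1) * n ≤ (f (π j) : ℕ) * n := Nat.mul_le_mul_right _ h3
      simp only [idx]
      nlinarith
    · have h3 : (π i : ℕ) < (π j : ℕ) := htie i j hij h2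
      simp only [idx, h2]
      omega
  have hsub : (List.ofFn idx).Sublist (List.range (k * n)) := by
    apply List.sublist_of_subperm_of_sortedLE
    · apply List.subperm_of_subset
      · exact List.nodup_ofFn.2 hidx.injective
      · intro x hx
        rw [List.mem_ofFn] at hx
        obtain ⟨i, rfl⟩ := hx
        rw [List.mem_range]
        have h3 : (f (π i) : ℕ) + 1 ≤ k := (f (π i)).2
        have h4 : (π i : ℕ) < n := (π i).2
        have h5 : ((f (π i) : ℕ) + 1) * n ≤ k * n := Nat.mul_le_mul_right _ h3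
        simp only [idx]
        nlinarith
    · exact List.sortedLE_ofFn_iff.2 hidx.monotone
    · exact List.sortedLT_range _ |>.sortedLE
  have := hsub.map (fun j => (⟨j % n, Nat.mod_lt _ hn⟩ : Fin n))
  rw [List.map_ofFn] at this
  have he : ((fun j => (⟨j % n, Nat.mod_lt _ hn⟩ : Fin n)) ∘ idx) = π := by
    funext i
    apply Fin.ext
    simp only [idx, Function.comp]
    rw [Nat.mul_add_mod_self_right, Nat.mod_eq_of_lt (π i).2]
  rw [he] at this
  exact this

lemma permCount_full {n k : ℕ} (hn : 0 < n) (hk : n ≤ k) :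
    permCount n (cyc n k hn) = n.factorial := by
  unfold permCount
  rw [Finset.filter_true_of_mem]
  · simp [Fintype.card_perm]
  · intro π _
    apply sublist_cyc hn (fun x => Fin.castLE hk (π.symm x)) π
    · intro i j hij
      simpa using hij
    · intro i j hij h
      simp only [Equiv.symm_apply_apply, Fin.castLE_inj] at h
      exact absurd h hij.ne

lemma sort_le_iff {k j : ℕ} (σ : Equiv.Perm (Fin k)) (g : Fin j → Fin k) (y : Fin k)
    (x : Fin (k + j)) : (Tuple.sort (Fin.append σ g)).symm (Fin.castAdd j y) ≤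
      (Tuple.sort (Fin.append σ g)).symm x ↔ σ y ≤ Fin.append σ g x := by
  obtain ⟨h1, h2⟩ := (Tuple.eq_sort_iff (f := Fin.append σ g)).1 rfl
  set π := Tuple.sort (Fin.append σ g)
  constructor
  · intro k
    simpa using h1 k
  · intro k
    by_contra m
    have m1 := not_le.1 m
    have m2 : Fin.append σ g x ≤ σ y := by simpa using h1 m1.le
    have m3 : x < Fin.castAdd j y := by
      simpa using h2 _ _ m1 (by simpa using le_antisymm m2 k)
    have m4 : (x : ℕ) < y := m3
    obtain ⟨z, rfl⟩ : ∃ z, x = Fin.castAdd j z := ⟨⟨x, m4.trans y.2⟩, rfl⟩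
    rw [Fin.append_left] at k m2
    rw [σ.injective (le_antisymm m2 k)] at m3
    exact lt_irrefl _ m3

lemma le_permCount {k j : ℕ} (hn : 0 < k + j) :
    k.factorial * k ^ j ≤ permCount (k + j) (cyc (k + j) k hn) := by
  have := card_le_card_of_injOn (s := univ)
    (t := univ.filter fun π : Equiv.Perm (Fin (k + j)) => (List.ofFn π).Sublist (cyc (k + j) k hn))
    (fun p : Equiv.Perm (Fin k) × (Fin j → Fin k) => Tuple.sort (Fin.append p.1 p.2))
    (fun p _ => by
      have := (Tuple.eq_sort_iff (f := Fin.append p.1 p.2)).1 rfl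
      simpa using sublist_cyc hn _ _ this.1 this.2)
    (by
      rintro ⟨σ, g⟩ - ⟨σ', g'⟩ - e
      have c : ∀ (σ : Equiv.Perm (Fin k)) (v : Fin k),
          (univ.filter fun y => σ y ≤ v).card = v + 1 := fun σ v => by
        rw [← Fin.card_Iic]
        exact card_bijective σ σ.bijective (by simp)
      have k : ∀ x, Fin.append σ g x = Fin.append σ' g' x := fun x => by
        have k1 := c σ (Fin.append σ g x)
        have k2 := c σ' (Fin.append σ' g' x)
        simp only [← sort_le_iff] at k1 k2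
        dsimp only at e
        rw [e, k2] at k1
        exact Fin.ext (by omega)
      refine Prod.ext (Equiv.ext fun y => ?_) (funext fun y => ?_)
      · simpa using k (Fin.castAdd j y)
      · simpa using k (Fin.natAdd _ y))
  simpa [permCount, Fintype.card_perm] using this

lemma choose_le {k j l : ℕ} (hk : 1 ≤ k) (hj : 1 ≤ j)
    (hl : Real.exp 2 * l ≤ (k + 1) * (k + j : ℕ)) : l.choose (k + j) ≤ k.factorial * k ^ j := by
  set n := k + j with hn
  have e0 := Real.exp_pos 1
  have k0 : (0 : ℝ) < k := by exact_mod_cast hk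
  have n1 : (1 : ℝ) ≤ n := by exact_mod_cast hk.trans (Nat.le_add_right _ _)
  have f0 : (0 : ℝ) < n.factorial := by exact_mod_cast n.factorial_pos
  have h1 : 2 * (n / Real.exp 1) ^ n ≤ n.factorial := by
    refine le_trans (mul_le_mul_of_nonneg_right (Real.le_sqrt_of_sq_le ?_) (by positivity))
      (Stirling.le_factorial_stirling n)
    nlinarith [Real.pi_gt_three]
  have h2 : (k / Real.exp 1) ^ k ≤ k.factorial := by
    have := Real.pow_div_factorial_le_exp (k : ℝ) k0.le k
    rw [div_le_iff₀ (by exact_mod_cast k.factorial_pos), ← Real.exp_one_pow] at this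
    rwa [div_pow, div_le_iff₀' (by positivity)]
  have h3 : (l : ℝ) ≤ (k + 1) / Real.exp 1 * (n / Real.exp 1) := by
    rw [div_mul_div_comm, le_div_iff₀' (by positivity), ← Real.exp_add]
    rwa [one_add_one_eq_two]
  have h4 : (l.choose n : ℝ) * 2 ≤ ((k + 1) / Real.exp 1) ^ n := by
    have a1 : (l.choose n : ℝ) ≤ (l : ℝ) ^ n / n.factorial := Nat.choose_le_pow_div n l
    have a2 := pow_le_pow_left₀ l.cast_nonneg h3 n
    rw [le_div_iff₀ f0] at a1
    rw [mul_pow] at a2
    refine le_of_mul_le_mul_right ?_ (show 0 < ((n : ℝ) / Real.exp 1) ^ n by positivity)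
    nlinarith [mul_le_mul_of_nonneg_left h1 (l.choose n).cast_nonneg]
  have h5 : (1 + (k : ℝ)⁻¹) ^ n ≤ 2 * Real.exp 1 ^ j := by
    obtain ⟨i, rfl⟩ : ∃ i, j = i + 1 := ⟨j - 1, by omega⟩
    have a1 : (1 + (k : ℝ)⁻¹) ≤ 2 := by
      linarith [inv_le_one_of_one_le₀ (show (1 : ℝ) ≤ k by exact_mod_cast hk)]
    have a2 : (2 : ℝ) ≤ Real.exp 1 := by linarith [Real.add_one_le_exp (1 : ℝ)]
    calc (1 + (k : ℝ)⁻¹) ^ n = (1 + (k : ℝ)⁻¹) * ((1 + (k : ℝ)⁻¹) ^ i * (1 + (k : ℝ)⁻¹) ^ k) := by
          rw [hn]; ring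
      _ ≤ 2 * (Real.exp 1 ^ i * Real.exp 1) := by
          gcongr
          · exact a1.trans a2
          · exact Real.one_add_inv_pow_le_exp
      _ = _ := by ring
  have h6 : (((k : ℝ) + 1) / Real.exp 1) ^ n =
      (1 + (k : ℝ)⁻¹) ^ n * ((k / Real.exp 1) ^ k * (k ^ j / Real.exp 1 ^ j)) := by
    rw [← div_pow, ← pow_add, ← mul_pow]
    congr 1
    field_simp
  have h7 : (l.choose n : ℝ) * 2 ≤ k.factorial * k ^ j * 2 := by
    rw [h6] at h4
    refine h4.trans ?_
    calc _ ≤ 2 * Real.exp 1 ^ j * (k.factorial * (k ^ j / Real.exp 1 ^ j)) := by gcongr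
      _ = _ := by field_simp
  exact_mod_cast le_of_mul_le_mul_right h7 two_pos

lemma exists_word {n m l : ℕ} (hn : 0 < n) (hm : 1 ≤ m) (hmn : m ≤ n.factorial)
    (hl : m ≤ l.choose n) :
    ∃ w : List (Fin n), (w.length : ℝ) ≤ Real.exp 2 * l ∧ m ≤ permCount n w := by
  have hnl : n ≤ l := by
    by_contra hc
    rw [Nat.choose_eq_zero_of_lt (not_le.1 hc)] at hl
    omega
  have n0 : (0 : ℝ) < n := by exact_mod_cast hn
  have h1 := Nat.floor_le (show 0 ≤ Real.exp 2 * l / n by positivity)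
  have h2 := Nat.lt_floor_add_one (Real.exp 2 * l / n)
  have h3 : 1 ≤ ⌊Real.exp 2 * l / n⌋₊ := by
    refine Nat.le_floor ?_
    rw [le_div_iff₀ n0]
    have : (n : ℝ) ≤ l := by exact_mod_cast hnl
    push_cast
    nlinarith [Real.add_one_le_exp (2 : ℝ)]
  generalize ⌊Real.exp 2 * l / n⌋₊ = k at h1 h2 h3
  rw [le_div_iff₀ n0] at h1
  rw [div_lt_iff₀ n0] at h2
  refine ⟨cyc n k hn, by rw [cyc_length]; exact_mod_cast h1, ?_⟩
  rcases le_or_gt n k with c | c
  · rwa [permCount_full hn c]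
  · obtain ⟨j, rfl⟩ := Nat.exists_eq_add_of_le c.le
    exact hl.trans ((choose_le h3 (by omega) h2.le).trans (le_permCount hn))

lemma ell_spec (m : ℕ) {n : ℕ} (hn : 1 ≤ n) : m ≤ (ell m n).choose n := by
  refine Nat.sInf_mem (s := {l : ℕ | m ≤ l.choose n}) ⟨n + m, ?_⟩
  show m ≤ (n + m).choose n
  have h1 : (1 + m).choose 1 ≤ (n + m).choose n := by
    rw [Nat.choose_symm_add, Nat.choose_symm_add (a := n)]
    exact Nat.choose_le_choose m (by omega)
  simp at h1
  omega

theorem upper {n m : ℕ} (hn : 1 ≤ n) (hm : 1 ≤ m) (hmn : m ≤ n.factorial) :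
    (∃ w : List (Fin n), w.length = h n m ∧ m ≤ permCount n w) ∧
      m ≤ (ell m n).choose n ∧ (h n m : ℝ) ≤ Real.exp 2 * ell m n := by
  obtain ⟨w, hw1, hw2⟩ := exists_word hn hm hmn (ell_spec m hn)
  have hmem : w.length ∈ {L : ℕ | ∃ w : List (Fin n), w.length = L ∧ m ≤ permCount n w} :=
    ⟨w, rfl, hw2⟩
  refine ⟨Nat.sInf_mem ⟨_, hmem⟩, ell_spec m hn, le_trans ?_ hw1⟩
  exact_mod_cast Nat.sInf_le hmem

end Pool.Agent.Lib.MP_6c7e5c_co
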