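import Pool.Agent.Lib.MP_6c7e5c_co.Lower
import Pool.Agent.Lib.MP_6c7e5c_co.Upper

/-! No constant below `e ^ 2` works for `m = n!`. -/

namespace Pool.Agent.Lib.MP_6c7e5c_co

open Finset Filter Topology

lemma univ_of_count {n : ℕ} {w : List (Fin n)} (hw : n.factorial ≤ permCount n w) :
    Univ univ w := by
  intro l hl e
  have h1 : (univ.filter fun π : Equiv.Perm (Fin n) => (List.ofFn π).Sublist w) = univ :=
    eq_univ_of_card _ (le_antisymm (card_le_univ _) (by simpa [Fintype.card_perm, permCount] using hw))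
  have h2 : l.length = n := by rw [← List.toFinset_card_of_nodup hl, e]; simp
  have h3 : Function.Injective fun i : Fin n => l.get (i.cast h2.symm) :=
    (List.nodup_iff_injective_get.1 hl).comp (Fin.cast_injective _)
  have h4 := (filter_eq_self.1 h1) (Equiv.ofBijective _ h3.bijective_of_finite) (mem_univ _)
  convert h4
  refine List.ext_get (by simp [h2]) fun i _ _ => by simp

lemma factorial_le (n : ℕ) :
    ((n + 1).factorial : ℝ) ≤ Real.exp 1 * (n + 1) * ((n + 1) / Real.exp 1) ^ (n + 1) := by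
  have e0 := Real.exp_pos 1
  induction n with
  | zero => simp [e0.ne']
  | succ n ih =>
    have h1 := Real.one_sub_div_pow_le_exp_neg (n := n + 2) (t := 1)
      (by exact_mod_cast Nat.le_add_left 1 (n + 1))
    have h2 : (1 : ℝ) - 1 / (n + 2 : ℕ) = (n + 1) / (n + 2) := by
      push_cast
      field_simp
      ring
    rw [h2, Real.exp_neg, div_pow, div_le_iff₀ (by positivity), le_inv_mul_iff₀ e0] at h1
    rw [Nat.factorial_succ (n + 1)]
    push_cast
    calc _ ≤ ((n : ℝ) + 1 + 1) * (Real.exp 1 * (n + 1) * ((n + 1) / Real.exp 1) ^ (n + 1)) := by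
          gcongr
      _ = (n + 2) / Real.exp 1 ^ (n + 1) * (Real.exp 1 * (n + 1) ^ (n + 2)) := by
          rw [div_pow]
          field_simp
          ring
      _ ≤ (n + 2) / Real.exp 1 ^ (n + 1) * (n + 2) ^ (n + 2) := by gcongr
      _ = _ := by
          rw [div_pow]
          field_simp
          ring

lemma ell_le {ρ : ℝ} (hρ : 1 < ρ) : ∀ᶠ n : ℕ in atTop,
    (ell n.factorial n : ℝ) ≤ n + 1 + (ρ * n / Real.exp 1) ^ 2 := by
  have e0 := Real.exp_pos 1
  filter_upwards [(tendsto_pow_const_div_const_pow_of_one_lt 1 hρ).eventually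
    (ge_mem_nhds (inv_pos.2 e0)), eventually_ge_atTop 1] with n h1 hn
  have h2 : (n.factorial : ℝ) ≤ (ρ * n / Real.exp 1) ^ n := by
    obtain ⟨k, rfl⟩ : ∃ k, n = k + 1 := ⟨n - 1, by omega⟩
    rw [pow_one, div_le_iff₀ (by positivity), le_inv_mul_iff₀ e0] at h1
    rw [mul_div_assoc, mul_pow]
    refine (factorial_le k).trans ?_
    push_cast at h1 ⊢
    gcongr
  set y := (ρ * n / Real.exp 1) ^ 2 with hy
  have y0 : 0 ≤ y := by positivity
  have f0 : (0 : ℝ) < n.factorial := by exact_mod_cast n.factorial_pos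
  have h3 : n.factorial ≤ (n + ⌈y⌉₊).choose n := by
    have a1 := Nat.pow_le_choose (α := ℝ) n (n + ⌈y⌉₊)
    have a2 : y ≤ (n + ⌈y⌉₊ + 1 - n : ℕ) :=
      (Nat.le_ceil y).trans (by exact_mod_cast (by omega))
    have a3 : (n.factorial : ℝ) * n.factorial ≤ y ^ n := by
      rw [hy, ← pow_mul, mul_comm 2 n, pow_mul, sq]
      gcongr
    have a4 : (n.factorial : ℝ) ≤ (n + ⌈y⌉₊).choose n := by
      refine le_trans ?_ a1
      rw [le_div_iff₀ f0]
      exact a3.trans (pow_le_pow_left₀ y0 a2 n)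
    exact_mod_cast a4
  have h4 : (ell n.factorial n : ℝ) ≤ (n + ⌈y⌉₊ : ℕ) := by
    exact_mod_cast Nat.sInf_le (s := {l : ℕ | n.factorial ≤ l.choose n}) h3
  push_cast at h4
  linarith [Nat.ceil_lt_add_one y0]

theorem sharp {C : ℝ} (hC : ∀ n : ℕ, 1 ≤ n → (h n n.factorial : ℝ) ≤ C * ell n.factorial n) :
    Real.exp 2 ≤ C := by
  have e0 := Real.exp_pos 1
  have i0 : Tendsto (fun n : ℕ => (n : ℝ)⁻¹) atTop (𝓝 0) := tendsto_inv_atTop_nhds_zero_nat
  have c : ∀ a : ℝ, Tendsto (fun _ : ℕ => a) atTop (𝓝 a) := fun _ => tendsto_const_nhds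
  have key : ∀ᶠ K : ℕ in atTop, 1 - 5 * (K : ℝ)⁻¹ ≤
      √(max C 0 * ((1 + (K : ℝ)⁻¹) / Real.exp 1) ^ 2) := by
    filter_upwards [eventually_ge_atTop 5] with K hK
    have K0 : (0 : ℝ) < K := by exact_mod_cast lt_of_lt_of_le (by norm_num) hK
    obtain ⟨D, hD⟩ : ∃ D : ℝ, ∀ (n : ℕ) (w : List (Fin n)), Univ univ w →
        ((K : ℝ) - 5) * n ≤ K * √w.length + D := by
      obtain ⟨D, hD⟩ := sqrt_lower (α := ℕ) hK
      refine ⟨D, fun n w hw => ?_⟩
      have := hD n (range n) (w.map Fin.val) (card_range n) fun l hl e => by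
        have m : ∀ a ∈ l, a < n := fun a ha => mem_range.1 (e ▸ List.mem_toFinset.2 ha)
        have e1 : (l.pmap Fin.mk m).map Fin.val = l := by simp [List.map_pmap]
        rw [← e1]
        refine (hw _ (List.Nodup.of_map Fin.val (e1.symm ▸ hl)) (eq_univ_of_forall fun a => ?_)).map _
        have : (a : ℕ) ∈ l := List.mem_toFinset.1 (e ▸ mem_range.2 a.2)
        exact List.mem_toFinset.2 (List.mem_pmap.2 ⟨a, this, rfl⟩)
      rwa [List.length_map] at this
    have t1 := (c (1 - 5 * (K : ℝ)⁻¹)).sub ((c (D / K)).mul i0)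
    have t2 := ((c (max C 0)).mul ((i0.add (i0.mul i0)).add
      (c (((1 + (K : ℝ)⁻¹) / Real.exp 1) ^ 2)))).sqrt
    simp only [mul_zero, sub_zero, add_zero, zero_add] at t1 t2
    refine le_of_tendsto_of_tendsto t1 t2 ?_
    filter_upwards [ell_le (ρ := 1 + (K : ℝ)⁻¹) (by simpa using K0), eventually_ge_atTop 1]
      with n h1 hn
    have n0 : (0 : ℝ) < n := by exact_mod_cast hn
    obtain ⟨⟨w, w1, w2⟩, -⟩ := upper hn n.factorial_pos le_rfl
    have h2 := hD n w (univ_of_count w2)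
    have h3 : (w.length : ℝ) ≤ (n : ℝ) ^ 2 * (max C 0 * ((n : ℝ)⁻¹ + (n : ℝ)⁻¹ * (n : ℝ)⁻¹ +
        ((1 + (K : ℝ)⁻¹) / Real.exp 1) ^ 2)) := by
      rw [w1]
      refine ((hC n hn).trans (mul_le_mul (le_max_left C 0) h1 (Nat.cast_nonneg _)
        (le_max_right _ _))).trans (le_of_eq ?_)
      field_simp
    have h4 := Real.sqrt_le_sqrt h3
    rw [Real.sqrt_mul (sq_nonneg _), Real.sqrt_sq n0.le] at h4
    refine le_of_mul_le_mul_left ?_ (mul_pos K0 n0)
    have h5 : (K : ℝ) * n * (1 - 5 * (K : ℝ)⁻¹ - D / K * (n : ℝ)⁻¹) = (K - 5) * n - D := by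
      field_simp
    rw [h5]
    nlinarith [mul_le_mul_of_nonneg_left h4 K0.le]
  have t1 := (c 1).sub ((c 5).mul i0)
  have t2 := ((c (max C 0)).mul ((((c 1).add i0).div_const (Real.exp 1)).pow 2)).sqrt
  have h1 := le_of_tendsto_of_tendsto t1 t2 key
  rw [mul_zero, sub_zero, add_zero, Real.one_le_sqrt, div_pow, one_pow, mul_one_div,
    one_le_div (by positivity), Real.exp_one_pow] at h1
  rcases le_max_iff.1 h1 with k | k
  · exact_mod_cast k
  · exact absurd k (not_le.2 (Real.exp_pos _))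

end Pool.Agent.Lib.MP_6c7e5c_co
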